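import Pool.Agent.helper62.CSL.Spec

/-!
# Project csl: (MP_70a088_an, class S): OUTL, the output of the plane ladder (class S copy of Pool/Agent/helper42/P2L/OUTL.lean and OUTC.lean; helper8)
-/

set_option autoImplicit false

open Complex Metric Set Filter Topology MeasureTheory
open CSS (SE it)

noncomputable section

namespace P2LS

theorem OUTL_FARmono {f : SE} {q : ℕ} {w : ℂ} {r r' : ℝ} (h : FAR f q w r) (hr : r' ≤ r) : FAR f q w r' :=
  fun m h0 h1 => hr.trans (h m h0 h1)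

/-- the good circle at the first bad scale. -/
theorem OUTL_cir (hCIR : P2L.CIR_stmt) (hIFC : CSS.IFC_stmt) (C₁ : ℝ) (hC₁ : 1 ≤ C₁) : ∃ c : ℝ, 0 < c ∧ ∀ (f : SE) (q : ℕ) (p : ℂ) (ρ₁ e₂ : ℝ), 0 < ρ₁ → 0 < e₂ →
    (∀ z ∈ ball p (8 * ρ₁), ‖it f q z - z‖ ≤ C₁ * e₂ * ρ₁) → (∃ z ∈ ball p ρ₁, e₂ * ρ₁ < ‖it f q z - z‖) →
    ∃ t : ℝ, 1 ≤ t ∧ t ≤ 2 ∧ ∀ z : ℂ, ‖z - p‖ = t * (2 * ρ₁) → c * e₂ * (2 * ρ₁) ≤ ‖it f q z - z‖ := by
  obtain ⟨c, hc, hcir⟩ := hCIR C₁ hC₁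
  refine ⟨c / 2, by positivity, ?_⟩
  intro f q p ρ₁ e₂ hρ1pos he₂ hb hex
  obtain ⟨z₁, hz₁, hz₁'⟩ := hex
  have hρC : ((2 * ρ₁ : ℝ) : ℂ) ≠ 0 := by
    have : (2 * ρ₁ : ℝ) ≠ 0 := by positivity
    exact_mod_cast this
  have heρ : 0 < e₂ * ρ₁ := by positivity
  set g : ℂ → ℂ := fun u => (it f q (p + ((2 * ρ₁ : ℝ) : ℂ) * u) - (p + ((2 * ρ₁ : ℝ) : ℂ) * u)) / ((e₂ * ρ₁ : ℝ) : ℂ) with hg
  have hgn : ∀ u, ‖g u‖ = ‖it f q (p + ((2 * ρ₁ : ℝ) : ℂ) * u) - (p + ((2 * ρ₁ : ℝ) : ℂ) * u)‖ / (e₂ * ρ₁) := by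
    intro u
    rw [hg]
    simp only
    rw [norm_div, Complex.norm_real, Real.norm_of_nonneg heρ.le]
  have hmem : ∀ (u : ℂ) (s : ℝ), ‖u‖ < s → p + ((2 * ρ₁ : ℝ) : ℂ) * u ∈ ball p (2 * ρ₁ * s) := by
    intro u s hu
    rw [mem_ball_iff_norm, add_sub_cancel_left, norm_mul, Complex.norm_real, Real.norm_of_nonneg (by positivity)]
    exact mul_lt_mul_of_pos_left hu (by positivity)
  have hgd : DifferentiableOn ℂ g (ball 0 4) := by
    have h5 : Differentiable ℂ g := by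
      rw [hg]
      exact ((((hIFC f).1 q).comp (by fun_prop : Differentiable ℂ fun u : ℂ => p + ((2 * ρ₁ : ℝ) : ℂ) * u)).sub
        (by fun_prop)).div_const _
    exact h5.differentiableOn
  have hgb : ∀ z ∈ ball (0 : ℂ) 4, ‖g z‖ ≤ C₁ := by
    intro u hu
    rw [mem_ball_zero_iff] at hu
    rw [hgn, div_le_iff₀ heρ]
    have h5 := hb _ (by
      have := hmem u 4 hu
      have e : 2 * ρ₁ * 4 = 8 * ρ₁ := by ring
      rwa [e] at this)
    linarith
  have hval : ∀ z : ℂ, p + ((2 * ρ₁ : ℝ) : ℂ) * ((z - p) / ((2 * ρ₁ : ℝ) : ℂ)) = z := by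
    intro z
    rw [mul_div_cancel₀ _ hρC]
    ring
  have hnorm : ∀ z : ℂ, ‖(z - p) / ((2 * ρ₁ : ℝ) : ℂ)‖ = ‖z - p‖ / (2 * ρ₁) := by
    intro z
    rw [norm_div, Complex.norm_real, Real.norm_of_nonneg (by positivity)]
  obtain ⟨t, ht1, ht2, ht⟩ := hcir g hgd hgb ⟨(z₁ - p) / ((2 * ρ₁ : ℝ) : ℂ), by
    rw [mem_ball_zero_iff, hnorm, div_lt_one (by positivity)]
    rw [mem_ball_iff_norm] at hz₁
    linarith, by
    rw [hgn, hval, le_div_iff₀ heρ]
    linarith⟩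
  refine ⟨t, ht1, ht2, ?_⟩
  intro z hz
  have h5 := ht ((z - p) / ((2 * ρ₁ : ℝ) : ℂ)) (by
    rw [hnorm, hz]
    field_simp)
  rw [hgn, hval, le_div_iff₀ heρ] at h5
  linarith


/-- **OUTL** -/
theorem OUTL (hDBJ : DBJ_stmt) (hROF : ROF_stmt) (hROL : ROL_stmt) (hNNR : NNR_stmt) (hLDG : LDG_stmt) (hTNN : TNN_stmt)
    (hCIR : P2L.CIR_stmt) (hIFC : CSS.IFC_stmt) : OUTL_stmt := by
  intro f hG κ R₀ δ K_Z e_Z N₀ hκ hR₀ hδ hKZ heZ hN₀
  obtain ⟨θ, Kt, et, hθ, hθ1, hKt, het, hTNN'⟩ := hTNN N₀ hN₀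
  obtain ⟨Kf, ef, hKf, hef, hROF'⟩ := hROF θ hθ hθ1
  obtain ⟨Kl, Cl, el, hKl, hCl, hel, hROL'⟩ := hROL f hG θ 16 hθ hθ1 (by norm_num)
  obtain ⟨cl, hcl, hLDG'⟩ := hLDG f Cl el hCl hel
  have hRκ : 0 < R₀ / κ := by positivity
  have h2θ : 0 < 2 / θ := by positivity
  set K' : ℝ := Kl + (2 / θ + R₀ / κ) with hK'
  have hK'1 : 1 ≤ K' := by linarith
  set K₁ : ℝ := K' + 2 / θ + K_Z + Kt + Kf with hK₁
  have hK₁1 : 1 ≤ K₁ := by linarith
  have hK₁pos : 0 < K₁ := by linarith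
  obtain ⟨C₁, e₁, hC₁, he₁, hDB⟩ := hDBJ f hG (1 / K₁) 16 (by positivity) (by norm_num)
  obtain ⟨c₁, hc₁, hcir⟩ := OUTL_cir hCIR hIFC C₁ hC₁
  obtain ⟨C₀, e₀, hC₀, he₀, hDB0⟩ := hDBJ f hG κ R₀ hκ hR₀
  obtain ⟨E, hE0, hEe₁, hEδ, hEet, hEef, hEeZ, hEel, hEh, hEδl⟩ : ∃ E : ℝ, 0 < E ∧ E ≤ e₁ ∧ C₁ * E ≤ δ ∧ E ≤ et ∧ E ≤ ef ∧ E ≤ e_Z ∧ E ≤ el ∧ E ≤ 1 / 2 ∧ Cl * E ≤ δ := by
    refine ⟨min (min (min e₁ (δ / C₁)) (min et ef)) (min (min e_Z el) (min (1 / 2) (δ / Cl))), by positivity, ?_, ?_, ?_, ?_, ?_, ?_, ?_, ?_⟩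
    · exact (min_le_left _ _).trans ((min_le_left _ _).trans (min_le_left _ _))
    · have h : min (min (min e₁ (δ / C₁)) (min et ef)) (min (min e_Z el) (min (1 / 2) (δ / Cl))) ≤ δ / C₁ :=
        (min_le_left _ _).trans ((min_le_left _ _).trans (min_le_right _ _))
      rw [le_div_iff₀ (by linarith)] at h
      linarith
    · exact (min_le_left _ _).trans ((min_le_right _ _).trans (min_le_left _ _))
    · exact (min_le_left _ _).trans ((min_le_right _ _).trans (min_le_right _ _))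
    · exact (min_le_right _ _).trans ((min_le_left _ _).trans (min_le_left _ _))
    · exact (min_le_right _ _).trans ((min_le_left _ _).trans (min_le_right _ _))
    · exact (min_le_right _ _).trans ((min_le_right _ _).trans (min_le_left _ _))
    · have h : min (min (min e₁ (δ / C₁)) (min et ef)) (min (min e_Z el) (min (1 / 2) (δ / Cl))) ≤ δ / Cl :=
        (min_le_right _ _).trans ((min_le_right _ _).trans (min_le_right _ _))
      rw [le_div_iff₀ (by linarith)] at h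
      linarith
  set e₂ : ℝ := E / K₁ with he₂
  have he₂0 : 0 < e₂ := by positivity
  have he₂K : e₂ * K₁ = E := by rw [he₂]; field_simp
  have he₂E : e₂ ≤ E := div_le_self hE0.le hK₁1
  set e' : ℝ := E / K' with he'
  have he'0 : 0 < e' := by positivity
  have he'K : e' * K' = E := by rw [he']; field_simp
  have he'E : e' ≤ E := div_le_self hE0.le hK'1
  refine ⟨min (c₁ * e₂) (cl * e'), min e₀ (e₂ / C₀), by positivity, by positivity, ?_⟩
  intro q y r₀ hq hr₀ hNR hFAR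
  -- the start
  have hstart : NR f q y (R₀ * r₀) e₂ := by
    have hε1 : min e₀ (e₂ / C₀) ≤ e₀ := min_le_left _ _
    have hε2 : min e₀ (e₂ / C₀) ≤ e₂ / C₀ := min_le_right _ _
    have hε3 : C₀ * min e₀ (e₂ / C₀) ≤ e₂ := by
      rw [le_div_iff₀ (by linarith)] at hε2
      linarith
    obtain ⟨h1, h2⟩ := hDB0 q y r₀ (min e₀ (e₂ / C₀)) hq hr₀ (by positivity) hε1 hNR hFAR
    refine ⟨h1, ?_⟩
    intro z hz
    refine (h2 z hz).trans ?_
    have h3 : C₀ * min e₀ (e₂ / C₀) * r₀ ≤ e₂ * r₀ := mul_le_mul_of_nonneg_right hε3 hr₀.le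
    have h4 : e₂ * r₀ ≤ e₂ * (R₀ * r₀) := by
      apply mul_le_mul_of_nonneg_left _ he₂0.le
      exact le_mul_of_one_le_left hr₀.le hR₀
    linarith
  have hRr : 0 < R₀ * r₀ := by positivity
  by_cases hS : ∃ ρ : ℝ, R₀ * r₀ ≤ ρ ∧ FAR f q y (1 / K₁ * ρ) ∧ ¬ NR f q y ρ e₂
  · -- (A)
    left
    set S : Set ℝ := {ρ | R₀ * r₀ ≤ ρ ∧ FAR f q y (1 / K₁ * ρ) ∧ ¬ NR f q y ρ e₂} with hSdef
    have hne : S.Nonempty := hS
    have hbdd : BddBelow S := ⟨R₀ * r₀, fun ρ h => h.1⟩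
    have hinf : R₀ * r₀ ≤ sInf S := le_csInf hne (fun ρ h => h.1)
    have hpos : 0 < sInf S := by linarith
    obtain ⟨ρ₁, ⟨hr1, hF1, hN1⟩, hρ1⟩ := exists_lt_of_csInf_lt hne (show sInf S < 3 / 2 * sInf S by linarith)
    have hρ1pos : 0 < ρ₁ := by linarith
    have hFm : ∀ ρ : ℝ, ρ ≤ ρ₁ → FAR f q y (1 / K₁ * ρ) := fun ρ h => OUTL_FARmono hF1 (by gcongr)
    obtain ⟨ρ', h1, h2, h3, h4⟩ : ∃ ρ' : ℝ, R₀ * r₀ ≤ ρ' ∧ ρ' ≤ ρ₁ ∧ ρ₁ ≤ 2 * ρ' ∧ NR f q y ρ' e₂ := by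
      by_cases h : R₀ * r₀ ≤ ρ₁ / 2
      · refine ⟨ρ₁ / 2, h, by linarith, by linarith, ?_⟩
        by_contra h3
        have h4 : ρ₁ / 2 ∈ S := ⟨h, hFm _ (by linarith), h3⟩
        have := csInf_le hbdd h4
        linarith
      · push Not at h
        exact ⟨R₀ * r₀, le_rfl, hr1, by linarith, hstart⟩
    have hρ'pos : 0 < ρ' := by linarith
    obtain ⟨hi, hn⟩ := hDB q y ρ' e₂ hq hρ'pos he₂0 (he₂E.trans hEe₁) h4 (hFm ρ' h2)
    have hsub : ball y (8 * ρ₁) ⊆ ball y (16 * ρ') := ball_subset_ball (by linarith)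
    have hb : ∀ z ∈ ball y (8 * ρ₁), ‖it f q z - z‖ ≤ C₁ * e₂ * ρ₁ := by
      intro z hz
      apply (hn z (hsub hz)).trans
      gcongr
    have hex : ∃ z ∈ ball y ρ₁, e₂ * ρ₁ < ‖it f q z - z‖ := by
      by_contra hcon
      push Not at hcon
      apply hN1
      exact ⟨hi.mono ((ball_subset_ball (by linarith)).trans hsub), hcon⟩
    obtain ⟨t, ht1, ht2, ht⟩ := hcir f q y ρ₁ e₂ hρ1pos he₂0 hb hex
    have e8 : 4 * (2 * ρ₁) = 8 * ρ₁ := by ring
    refine ⟨y, 2 * ρ₁, t, by positivity, ht1, ht2, ball_subset_ball (by linarith), ?_, ?_, ?_⟩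
    · rw [e8]; exact hi.mono hsub
    · intro z hz
      rw [e8] at hz
      refine (hb z hz).trans ?_
      have h5 : C₁ * e₂ ≤ δ := (mul_le_mul_of_nonneg_left he₂E (by linarith)).trans hEδ
      have h6 : C₁ * e₂ * ρ₁ ≤ δ * ρ₁ := mul_le_mul_of_nonneg_right h5 hρ1pos.le
      have h7 : 0 < δ * ρ₁ := mul_pos hδ hρ1pos
      linarith
    · intro z hz
      refine le_trans ?_ (ht z hz)
      apply mul_le_mul_of_nonneg_right (min_le_left _ _) (by positivity)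
  · -- (B)
    push Not at hS
    obtain ⟨ρn, hn1, hn2⟩ := hNNR f q y (R₀ * r₀) e₂ hq (he₂E.trans hEh)
    have hnF : ¬ FAR f q y (1 / K₁ * ρn) := fun h => hn2 (hS ρn hn1 h)
    have hne : (Finset.Ioo 0 q).Nonempty := by
      by_contra hcon
      apply hnF
      intro m hm0 hmq
      exfalso
      apply hcon
      exact ⟨m, Finset.mem_Ioo.mpr ⟨hm0, hmq⟩⟩
    obtain ⟨a, ha, hmin⟩ := Finset.exists_min_image (Finset.Ioo 0 q) (fun m => ‖it f m y - y‖) hne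
    rw [Finset.mem_Ioo] at ha
    obtain ⟨ha0, haq⟩ := ha
    set s : ℝ := ‖it f a y - y‖ with hs
    have hsκ : κ * r₀ ≤ s := hFAR a ha0 haq
    have hspos : 0 < s := lt_of_lt_of_le (by positivity) hsκ
    have hFs : FAR f q y s := fun m h0 h1 => hmin m (Finset.mem_Ioo.mpr ⟨h0, h1⟩)
    have hRs : R₀ * r₀ ≤ R₀ / κ * s := by
      rw [div_mul_eq_mul_div, le_div_iff₀ hκ]
      have h1 : R₀ * (κ * r₀) ≤ R₀ * s := mul_le_mul_of_nonneg_left hsκ (by linarith)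
      have h2 : R₀ * r₀ * κ = R₀ * (κ * r₀) := by ring
      rw [h2]
      exact h1
    have hRK : R₀ / κ * s ≤ K₁ * s := by
      apply mul_le_mul_of_nonneg_right _ hspos.le
      linarith
    have hNRK : NR f q y (K₁ * s) e₂ := by
      apply hS (K₁ * s) (hRs.trans hRK)
      have e1 : 1 / K₁ * (K₁ * s) = s := by field_simp
      rw [e1]
      exact hFs
    obtain ⟨hinjK, hnearK⟩ := hNRK
    have hnearE : ∀ z ∈ ball y (K₁ * s), ‖it f q z - z‖ ≤ E * s := by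
      intro z hz
      have h1 := hnearK z hz
      have e1 : e₂ * (K₁ * s) = E * s := by rw [← mul_assoc, he₂K]
      rwa [e1] at h1
    have hsubK : ∀ K : ℝ, K ≤ K₁ → ball y (K * s) ⊆ ball y (K₁ * s) := fun K h =>
      ball_subset_ball (mul_le_mul_of_nonneg_right h hspos.le)
    by_cases hder : ‖deriv (it f a) y - 1‖ < θ
    · right
      refine ⟨a, hsκ, ha0, haq, ?_, ?_, ?_, ?_, ?_⟩
      · intro h
        rw [← sub_eq_zero, ← norm_eq_zero] at h
        rw [hs] at hspos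
        linarith
      · apply hTNN' f q a y s ha0 haq hspos (hinjK.mono (hsubK Kt (by linarith))) _ rfl hder
        intro z hz
        refine (hnearE z (hsubK Kt (by linarith) hz)).trans ?_
        exact mul_le_mul_of_nonneg_right hEet hspos.le
      · exact hinjK.mono (hsubK K_Z (by linarith))
      · intro z hz
        refine (hnearE z (hsubK K_Z (by linarith) hz)).trans ?_
        exact mul_le_mul_of_nonneg_right hEeZ hspos.le
      · exact hFs
    · left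
      push Not at hder
      obtain ⟨p, hpy, hpa, hpq, hpd⟩ := hROF' f q a y s ha0 haq hspos (hinjK.mono (hsubK Kf (by linarith))) (by
        intro z hz
        refine (hnearE z (hsubK Kf (by linarith) hz)).trans ?_
        exact mul_le_mul_of_nonneg_right hEef hspos.le) rfl hder
      have hpy' : ‖p - y‖ ≤ 2 / θ * s := by
        rw [div_mul_eq_mul_div]; exact hpy
      have hsubp : ball p (K' * s) ⊆ ball y (K₁ * s) := by
        intro z hz
        rw [mem_ball, dist_eq_norm] at hz ⊢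
        have h1 : ‖z - y‖ ≤ ‖z - p‖ + ‖p - y‖ := by
          calc ‖z - y‖ = ‖(z - p) + (p - y)‖ := by ring_nf
            _ ≤ _ := norm_add_le _ _
        have h2 : K' * s + 2 / θ * s ≤ K₁ * s := by
          have : K' + 2 / θ ≤ K₁ := by linarith
          rw [← add_mul]
          exact mul_le_mul_of_nonneg_right this hspos.le
        linarith
      have hK's : 0 < K' * s := by positivity
      obtain ⟨ρ, t, hρr, ht1, ht2, hinj4, hnear4, hcirc⟩ := hLDG' q p (K' * s) e' hq hK's he'0 (he'E.trans hEel) (he'E.trans hEh) (by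
        intro ρ e hρ he hee hNRρ
        apply hROL' q a y p s ρ e ha0 haq hspos hFs hpy hpa hpd _ he hee hNRρ
        refine le_trans ?_ hρ
        apply mul_le_mul_of_nonneg_right _ hspos.le
        linarith) ⟨hinjK.mono hsubp, by
        intro z hz
        have h1 := hnearE z (hsubp hz)
        have e1 : e' * (K' * s) = E * s := by rw [← mul_assoc, he'K]
        rw [e1]
        exact h1⟩
      have hρpos : 0 < ρ := by linarith
      refine ⟨p, ρ, t, hρpos, ht1, ht2, ?_, hinj4, ?_, ?_⟩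
      · intro z hz
        rw [mem_ball, dist_eq_norm] at hz ⊢
        have h1 : ‖z - p‖ ≤ ‖z - y‖ + ‖p - y‖ := by
          calc ‖z - p‖ = ‖(z - y) - (p - y)‖ := by ring_nf
            _ ≤ _ := norm_sub_le _ _
        have h2 : R₀ / κ * s + 2 / θ * s ≤ K' * s := by
          have : R₀ / κ + 2 / θ ≤ K' := by linarith
          rw [← add_mul]
          exact mul_le_mul_of_nonneg_right this hspos.le
        linarith
      · intro z hz
        refine (hnear4 z hz).trans ?_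
        apply mul_le_mul_of_nonneg_right _ hρpos.le
        exact (mul_le_mul_of_nonneg_left he'E (by linarith)).trans hEδl
      · intro z hz
        refine le_trans ?_ (hcirc z hz)
        apply mul_le_mul_of_nonneg_right (min_le_right _ _) hρpos.le

end P2LS
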